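import Pool.Agent.helper14.AV.Spec3

set_option autoImplicit false

namespace Pool.Agent.helper14.AV

private lemma SPA_seg {ι : Type} (A B : ι → ℝ × ℝ) (x : ι × Bool) :
    segment ℝ (st A B x) (fn A B x) = segment ℝ (A x.1) (B x.1) := by
  obtain ⟨u, b⟩ := x
  cases b
  · simp only [st, fn]
    exact segment_symm ℝ _ _
  · simp [st, fn]

private lemma SPA_fn_mem {ι : Type} (A B : ι → ℝ × ℝ) (x : ι × Bool) : fn A B x ∈ segment ℝ (A x.1) (B x.1) := by
  rw [← SPA_seg]
  exact right_mem_segment ℝ _ _

private lemma SPA_st_mem {ι : Type} (A B : ι → ℝ × ℝ) (x : ι × Bool) : st A B x ∈ segment ℝ (A x.1) (B x.1) := by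
  rw [← SPA_seg]
  exact left_mem_segment ℝ _ _

private lemma SPA_ne {ι : Type} (A B : ι → ℝ × ℝ) (x : ι × Bool) (h : ∀ u, A u ≠ B u) : st A B x ≠ fn A B x := by
  obtain ⟨u, b⟩ := x
  cases b
  · simpa [st, fn] using (h u).symm
  · simpa [st, fn] using h u

theorem SPA : SPA_stmt := by
  intro ι A B x k v hv hne hd hes hee hEE
  have hseg : ∀ i, i < k → segment ℝ (v (2 * i)) (v (2 * i + 1)) = segment ℝ (A (x i).1) (B (x i).1) := by
    intro i hi
    rw [(hv i hi).1, (hv i hi).2, SPA_seg]
  have hedge : ∀ i, i + 1 < k → segment ℝ (v (2 * i + 1)) (v (2 * i + 1 + 1)) = Eg A B (x i, x (i + 1)) := by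
    intro i hi
    have h1 : 2 * i + 1 + 1 = 2 * (i + 1) := by ring
    rw [h1, (hv i (by omega)).2, (hv (i + 1) hi).1]
    rfl
  refine ⟨?_, ?_⟩
  · intro i hi
    rcases Nat.even_or_odd' i with ⟨p, rfl | rfl⟩
    · rw [(hv p (by omega)).1, (hv p (by omega)).2]
      exact SPA_ne A B _ hne
    · have h1 : 2 * p + 1 + 1 = 2 * (p + 1) := by ring
      rw [h1, (hv p (by omega)).2, (hv (p + 1) (by omega)).1]
      intro h
      have h2 := SPA_fn_mem A B (x p)
      rw [h] at h2
      exact Set.disjoint_left.1 (hd p (p + 1) (by omega) (by omega)) h2 (SPA_st_mem A B (x (p + 1)))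
  · intro i j hij hj z hzi hzj
    rcases Nat.even_or_odd' i with ⟨p, rfl | rfl⟩
    · rw [hseg p (by omega)] at hzi
      rcases Nat.even_or_odd' j with ⟨q, rfl | rfl⟩
      · rw [hseg q (by omega)] at hzj
        exact (Set.disjoint_left.1 (hd p q (by omega) (by omega)) hzi hzj).elim
      · rw [hedge q (by omega)] at hzj
        by_cases hpq : p = q
        · subst hpq
          refine ⟨rfl, ?_⟩
          rw [(hv p (by omega)).2]
          exact (hee p (by omega) z hzj).1 hzi
        · exact (Set.disjoint_left.1 (hes q (by omega) p (by omega) hpq (by omega)) hzj hzi).elim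
    · rw [hedge p (by omega)] at hzi
      rcases Nat.even_or_odd' j with ⟨q, rfl | rfl⟩
      · rw [hseg q (by omega)] at hzj
        by_cases hpq : q = p + 1
        · subst hpq
          refine ⟨by ring, ?_⟩
          rw [(hv (p + 1) (by omega)).1]
          exact (hee p (by omega) z hzi).2 hzj
        · exact (Set.disjoint_left.1 (hes p (by omega) q (by omega) (by omega) hpq) hzi hzj).elim
      · rw [hedge q (by omega)] at hzj
        exact (Set.disjoint_left.1 (hEE p q (by omega) (by omega)) hzi hzj).elim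

end Pool.Agent.helper14.AV
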